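import Pool.Agent.X105.CS.Suf

/-!
# Random vectors generating convex-stable sets by coordinate hulls

`hull x` is the closed convex hull of the half-lines `{t e_i : t ≤ x_i}`. The theorem determines
all laws `μ` of random vectors `ξ` in `R^d` such that the random closed convex set `X = hull ξ` is
convex-stable (`ConvexStable μ`).

For `d ≥ 2` there are exactly three (not mutually exclusive) possibilities:

1. all coordinates of `ξ` are negative almost surely and `ξ` is strictly max-stable;
2. almost surely some coordinate of `ξ` is nonnegative and the vector `ξ⁺` of positive parts is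
   strictly max-stable;
3. `ξ⁺` has the law of `(l + ζ) r` with a number `l > 0`, a nonzero vector `r ∈ [0, ∞)^d` and a
   random variable `ζ ≥ 0` such that for every `m ≥ 1` there is `a ≥ 1` for which `a ζ` has the
   law of the maximum of `m` independent copies of `ζ` (`ShiftedType μ`).

For `d = 1` the condition is max-stability with an arbitrary shift.
-/

set_option autoImplicit false

namespace Pool.Agent.Results.MP_57d4a6_pr.ConvexStableHulls

open MeasureTheory Pool.Agent.X105.CS

theorem result :
    (∀ d : ℕ, 2 ≤ d → ∀ μ : Measure (Fin d → ℝ), IsProbabilityMeasure μ →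
      (ConvexStable μ ↔
        ((∀ᵐ x ∂μ, ∀ i, x i < 0) ∧ StrictMaxStable μ) ∨
        ((∀ᵐ x ∂μ, ∃ i, 0 ≤ x i) ∧ StrictMaxStable (μ.map pos)) ∨
        ShiftedType μ)) ∧
    (∀ μ : Measure (Fin 1 → ℝ), IsProbabilityMeasure μ →
      (ConvexStable μ ↔ ∀ n : ℕ, 1 ≤ n → ∃ a b : ℝ, 0 < a ∧
        μ.map (fun x => a • x)
          = (Measure.pi fun _ : Fin n => μ).map (fun ω i => (⨆ k, ω k i) + b))) :=
  ⟨classification, fun μ _ => dim_one μ⟩

end Pool.Agent.Results.MP_57d4a6_pr.ConvexStableHulls
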